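import Pool.Agent.Helper4.MCP.GoalsC

/-!
# Packet MCP-NUMP: the choice of `Q`
-/

namespace Pool.Agent.Helper56.MCP

open Pool.Agent.Helper4.MCP Pool.Agent.Helper26.MCE Pool.Agent.Helper87.MC Finset

/-- The numerical part for a general exponent. -/
theorem aux {a L s k Q : ℝ} {m : ℕ} (ha : 0 < a) (hL : 0 < L) (hk : 0 ≤ k) (hQ : 0 ≤ Q)
    (hQa : Q ≤ a * L) (h : k ≤ (1 / a) ^ m * s / L ^ m) : k ^ 2 * Q ^ (2 * m) ≤ s ^ 2 := by
  have haL : 0 < a * L := mul_pos ha hL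
  have h1 : k * Q ^ m ≤ s := by
    calc k * Q ^ m ≤ k * (a * L) ^ m :=
          mul_le_mul_of_nonneg_left (pow_le_pow_left₀ hQ hQa m) hk
      _ ≤ ((1 / a) ^ m * s / L ^ m) * (a * L) ^ m :=
          mul_le_mul_of_nonneg_right h (by positivity)
      _ = s := by
          rw [mul_pow, one_div, inv_pow]
          field_simp
  have h2 : 0 ≤ k * Q ^ m := mul_nonneg hk (pow_nonneg hQ m)
  have h3 := pow_le_pow_left₀ h2 h1 2
  calc k ^ 2 * Q ^ (2 * m) = (k * Q ^ m) ^ 2 := by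
        rw [mul_pow, ← pow_mul, Nat.mul_comm m 2]
    _ ≤ s ^ 2 := h3

theorem clog_le {n : ℕ} (hn : 3 ≤ n) : (Nat.clog 2 n : ℝ) ≤ 10000 * Real.log n := by
  have h1 : (1 : ℝ) ≤ Real.log n := by
    rw [Real.le_log_iff_exp_le (by positivity)]
    have h2 : (3 : ℝ) ≤ n := by exact_mod_cast hn
    exact le_trans (le_trans (le_of_lt Real.exp_one_lt_d9) (by norm_num)) h2
  have h3 : 2 ^ (Nat.clog 2 n).pred < n := Nat.pow_pred_clog_lt_self (by norm_num) (by omega)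
  have h4 : ((2 : ℝ)) ^ (Nat.clog 2 n).pred ≤ n := by exact_mod_cast h3.le
  have h5 : Real.log ((2 : ℝ) ^ (Nat.clog 2 n).pred) ≤ Real.log n :=
    Real.log_le_log (by positivity) h4
  rw [Real.log_pow] at h5
  have h6 : (0.5 : ℝ) < Real.log 2 := lt_trans (by norm_num) Real.log_two_gt_d9
  have h7 : 0 < Nat.clog 2 n := Nat.clog_pos (by norm_num) (by omega)
  have h8 : ((Nat.clog 2 n).pred : ℝ) = (Nat.clog 2 n : ℝ) - 1 := by
    have : (Nat.clog 2 n).pred + 1 = Nat.clog 2 n := Nat.succ_pred_eq_of_pos h7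
    have h9 : (((Nat.clog 2 n).pred + 1 : ℕ) : ℝ) = (Nat.clog 2 n : ℝ) := by rw [this]
    push_cast at h9
    linarith
  rw [h8] at h5
  have h10 : (1 : ℝ) ≤ Nat.clog 2 n := by exact_mod_cast h7
  nlinarith

theorem goalNUMP : G_NUMP := by
  refine ⟨(1 / 10000) ^ 250, by positivity, fun n k hn hk h => ?_⟩
  have h1 : (1 : ℝ) ≤ Real.log n := by
    rw [Real.le_log_iff_exp_le (by positivity)]
    have h2 : (3 : ℝ) ≤ n := by exact_mod_cast hn
    exact le_trans (le_trans (le_of_lt Real.exp_one_lt_d9) (by norm_num)) h2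
  refine ⟨max 10000 (Nat.clog 2 n), le_max_left _ _, ?_, ?_⟩
  · exact le_trans (Nat.le_pow_clog (by norm_num) n)
      (Nat.pow_le_pow_right (by norm_num) (le_max_right _ _))
  · have hQ : ((max 10000 (Nat.clog 2 n) : ℕ) : ℝ) ≤ 10000 * Real.log n := by
      rcases max_cases 10000 (Nat.clog 2 n) with ⟨h2, -⟩ | ⟨h2, -⟩
      · rw [h2]
        push_cast
        linarith
      · rw [h2]
        exact clog_le hn
    have h3 := aux (m := 250) (by norm_num : (0 : ℝ) < 10000) (by linarith : 0 < Real.log n)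
      (Nat.cast_nonneg k) (Nat.cast_nonneg (max 10000 (Nat.clog 2 n))) hQ h
    rw [Real.sq_sqrt (Nat.cast_nonneg n)] at h3
    have h4 : (((k ^ 2 * (max 10000 (Nat.clog 2 n)) ^ (2 * 250) : ℕ)) : ℝ) ≤ (n : ℝ) := by
      rw [Nat.cast_mul, Nat.cast_pow, Nat.cast_pow]
      exact h3
    exact Nat.cast_le.1 h4

end Pool.Agent.Helper56.MCP
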